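import Pool.Agent.X241.PSD.Cert

/-!
# The interval property of positive semidefinite propagation times fails

There is a graph with 15 vertices and 42 edges whose minimum positive semidefinite zero forcing sets
have six vertices and whose propagation times are exactly `1, 2, 3, 5, 6, 7, 8, 9`; no minimum forcing
set has propagation time `4`.  The graph was found by a computer search.  The proof: a connected set of
vertices `c` such that no vertex outside `c` has exactly one neighbour in `c` meets every forcing set;
a search tree (helper file) with such sets at its leaves shows that every forcing set with at most six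
vertices is one of 136 sets with six vertices, whose propagation times are computed.
-/

set_option autoImplicit false

open Pool.Agent.X241.PSD

namespace Pool.Agent.Results.MP_bfe17a_co.NoInterval

section defs
variable {V : Type*}

/-- When `B` is the set of blue vertices, the blue vertex `u` may force the white vertex `w`: it is
the only white neighbour of `u` in the component of `G - B` which contains `w`. -/
def Forces (G : SimpleGraph V) (B : Set V) (u w : V) : Prop :=
  u ∈ B ∧ G.Adj u w ∧ ∃ hw : w ∈ Bᶜ, ∀ (w' : V) (hw' : w' ∈ Bᶜ), G.Adj u w' →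
    (G.induce Bᶜ).Reachable ⟨w, hw⟩ ⟨w', hw'⟩ → w' = w

/-- The blue set after all possible forces are performed simultaneously. -/
def next (G : SimpleGraph V) (B : Set V) : Set V := B ∪ {w | ∃ u, Forces G B u w}

/-- The blue sets which can be reached from `S` by repeated application of the rule. -/
inductive Derives (G : SimpleGraph V) (S : Set V) : Set V → Prop
  | start : Derives G S S
  | force {B : Set V} {u w : V} : Derives G S B → Forces G B u w → Derives G S (insert w B)

/-- `S` is a positive semidefinite zero forcing set. -/
def IsForcing (G : SimpleGraph V) (S : Set V) : Prop := Derives G S Set.univ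

/-- The positive semidefinite zero forcing number. -/
noncomputable def forcingNumber (G : SimpleGraph V) : ℕ :=
  sInf {k | ∃ S : Set V, IsForcing G S ∧ S.ncard = k}

/-- `S` is a minimum forcing set. -/
def IsMinimum (G : SimpleGraph V) (S : Set V) : Prop :=
  IsForcing G S ∧ S.ncard = forcingNumber G

/-- The propagation time of `S`. -/
noncomputable def propTime (G : SimpleGraph V) (S : Set V) : ℕ :=
  sInf {t | (next G)^[t] S = Set.univ}

/-- The propagation times of the minimum forcing sets. -/
def propTimes (G : SimpleGraph V) : Set ℕ := {t | ∃ S, IsMinimum G S ∧ propTime G S = t}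

end defs

section general
variable {V : Type*} {G : SimpleGraph V}

theorem reach_mono {B B' : Set V} (h : B ⊆ B') {a b : V} (ha : a ∈ B) (hb : b ∈ B)
    (hr : (G.induce B).Reachable ⟨a, ha⟩ ⟨b, hb⟩) :
    (G.induce B').Reachable ⟨a, h ha⟩ ⟨b, h hb⟩ :=
  hr.map (SimpleGraph.induceHomOfLE G h).toHom

theorem Forces.mono {B B' : Set V} (h : B ⊆ B') {u w : V} (hf : Forces G B u w) (hw : w ∉ B') :
    Forces G B' u w := by
  obtain ⟨hu, ha, hwB, hall⟩ := hf
  refine ⟨h hu, ha, hw, fun w' hw' haw' hr => ?_⟩
  have hcc : B'ᶜ ⊆ Bᶜ := Set.compl_subset_compl.2 h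
  exact hall w' (hcc hw') haw' (reach_mono hcc hw hw' hr)

theorem derives_next_aux {S B : Set V} (hd : Derives G S B) (F : Finset V)
    (hF : ∀ x ∈ F, ∃ u, Forces G B u x) : Derives G S (B ∪ ↑F) := by
  classical
  induction F using Finset.induction_on with
  | empty => simpa using hd
  | insert w F hwF ih =>
    have h1 : Derives G S (B ∪ ↑F) := ih (fun x hx => hF x (Finset.mem_insert_of_mem hx))
    by_cases hw : w ∈ B ∪ (↑F : Set V)
    · have : B ∪ (↑(insert w F) : Set V) = B ∪ ↑F := by
        rw [Finset.coe_insert, Set.union_insert, Set.insert_eq_of_mem hw]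
      rw [this]; exact h1
    · obtain ⟨u, hu⟩ := hF w (Finset.mem_insert_self w F)
      have := Derives.force h1 (hu.mono Set.subset_union_left hw)
      rwa [Finset.coe_insert, Set.union_insert]

theorem derives_next [Finite V] {S B : Set V} (hd : Derives G S B) : Derives G S (next G B) := by
  classical
  have hfin : {w | ∃ u, Forces G B u w}.Finite := Set.toFinite _
  have := derives_next_aux hd hfin.toFinset (fun x hx => by simpa using hx)
  rwa [hfin.coe_toFinset] at this

theorem derives_iterate [Finite V] {S : Set V} (t : ℕ) : Derives G S ((next G)^[t] S) := by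
  induction t with
  | zero => exact Derives.start
  | succ t ih => rw [Function.iterate_succ_apply']; exact derives_next ih

theorem isForcing_of_iterate [Finite V] {S : Set V} {t : ℕ} (h : (next G)^[t] S = Set.univ) :
    IsForcing G S := by
  have := derives_iterate (G := G) (S := S) t
  rwa [h] at this

/-- A connected set of vertices such that no vertex outside has exactly one neighbour in it meets
every forcing set. -/
theorem fort {c : Set V} {s : V} (hs : s ∈ c)
    (hconn : ∀ x (hx : x ∈ c), (G.induce c).Reachable ⟨s, hs⟩ ⟨x, hx⟩)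
    (hout : ∀ u ∉ c, ∀ w ∈ c, G.Adj u w → ∃ w' ∈ c, w' ≠ w ∧ G.Adj u w')
    {S : Set V} (hS : ∀ x ∈ S, x ∉ c) : ¬ IsForcing G S := by
  intro hf
  have key : ∀ B, Derives G S B → ∀ x ∈ B, x ∉ c := by
    intro B hB
    induction hB with
    | start => exact hS
    | @force B u w hd hfo ih =>
      intro x hx
      rcases Set.mem_insert_iff.1 hx with rfl | hx
      · intro hxc
        obtain ⟨hu, ha, hxB, hall⟩ := hfo
        obtain ⟨w', hw'c, hne, haw'⟩ := hout u (ih u hu) x hxc ha
        have hcB : c ⊆ Bᶜ := fun y hy hyB => ih y hyB hy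
        apply hne
        refine hall w' (hcB hw'c) haw' ?_
        have h1 := reach_mono hcB hs hxc (hconn x hxc)
        have h2 := reach_mono hcB hs hw'c (hconn w' hw'c)
        exact h1.symm.trans h2
      · exact ih x hx
  exact key _ hf s (Set.mem_univ s) hs

end general


section computation

/-- The example. -/
def G15 : SimpleGraph (Fin 15) where
  Adj u v := (A u).testBit v = true
  symm := ⟨by decide⟩
  loopless := ⟨by decide⟩

/-- the set with the bit mask `m` -/
def toS (m : ℕ) : Set (Fin 15) := {x | m.testBit x = true}

theorem lor_bit (a b i : ℕ) : (Nat.lor a b).testBit i = (a.testBit i || b.testBit i) :=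
  Nat.testBit_or a b i

theorem land_bit (a b i : ℕ) : (Nat.land a b).testBit i = (a.testBit i && b.testBit i) :=
  Nat.testBit_and a b i

theorem one_bit (w x : ℕ) : (Nat.shiftLeft 1 w).testBit x = decide (w = x) := by
  change (1 <<< w).testBit x = _
  rw [Nat.one_shiftLeft, Nat.testBit_two_pow]

theorem compl_bit (B : ℕ) (x : Fin 15) : (Nat.xor 32767 B).testBit x = !(B.testBit x) := by
  change (32767 ^^^ B).testBit x = _
  rw [Nat.testBit_xor]
  have h : (32767 : ℕ).testBit x = true := by revert x; decide
  rw [h]; simp

theorem A_lt (u : Fin 15) : A u < 2 ^ 15 := by revert u; decide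

theorem A_bit_lt {u : Fin 15} {y : ℕ} (h : (A u).testBit y = true) : y < 15 := by
  by_contra hy
  rw [Nat.testBit_lt_two_pow (lt_of_lt_of_le (A_lt u) (Nat.pow_le_pow_right (by norm_num)
    (by omega)))] at h
  exact Bool.false_ne_true h

theorem mem_ix (x : ℕ) : x ∈ ix ↔ x < 15 := by
  unfold ix
  simp only [List.mem_cons, List.not_mem_nil, or_false]
  omega

theorem nbL_spec (c : ℕ) (l : List ℕ) : ∀ i v, (nbL c l i).testBit v = true ↔
    ∃ j, j < l.length ∧ c.testBit (i + j) = true ∧ (l.getD j 0).testBit v = true := by
  induction l with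
  | nil => intro i v; simp [nbL]
  | cons a l ih =>
    intro i v
    have hshift : (∃ j, j < l.length ∧ c.testBit (i + 1 + j) = true ∧
        (l.getD j 0).testBit v = true) ↔ ∃ j, j < l.length ∧ c.testBit (i + (j + 1)) = true ∧
        ((a :: l).getD (j + 1) 0).testBit v = true := by
      constructor
      · rintro ⟨j, h1, h2, h3⟩
        exact ⟨j, h1, by rwa [show i + (j + 1) = i + 1 + j by omega], by simpa using h3⟩
      · rintro ⟨j, h1, h2, h3⟩
        exact ⟨j, h1, by rwa [show i + 1 + j = i + (j + 1) by omega], by simpa using h3⟩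
    unfold nbL
    cases hc : c.testBit i with
    | true =>
      rw [cond_true, lor_bit, Bool.or_eq_true, ih, hshift]
      constructor
      · rintro (h | ⟨j, h1, h2, h3⟩)
        · exact ⟨0, by simp, by simpa using hc, by simpa using h⟩
        · exact ⟨j + 1, by simpa using h1, h2, h3⟩
      · rintro ⟨j, h1, h2, h3⟩
        cases j with
        | zero => left; simpa using h3
        | succ j => right; exact ⟨j, by simpa using h1, h2, h3⟩
    | false =>
      rw [cond_false, ih, hshift]
      constructor
      · rintro ⟨j, h1, h2, h3⟩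
        exact ⟨j + 1, by simpa using h1, h2, h3⟩
      · rintro ⟨j, h1, h2, h3⟩
        cases j with
        | zero => rw [Nat.add_zero, hc] at h2; exact absurd h2 Bool.false_ne_true
        | succ j => exact ⟨j, by simpa using h1, h2, h3⟩

theorem nb_spec (c v : ℕ) : (nb c).testBit v = true ↔
    ∃ j : Fin 15, c.testBit j = true ∧ (A j).testBit v = true := by
  unfold nb
  rw [nbL_spec]
  constructor
  · rintro ⟨j, h1, h2, h3⟩
    exact ⟨⟨j, h1⟩, by simpa using h2, h3⟩
  · rintro ⟨j, h2, h3⟩
    exact ⟨j, j.2, by simpa using h2, h3⟩

theorem flood_closed (W : ℕ) : ∀ k c r, flood W k c = some r →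
    (∀ x, c.testBit x = true → r.testBit x = true) ∧
    (∀ x, (nb r).testBit x = true → W.testBit x = true → r.testBit x = true) := by
  intro k
  induction k with
  | zero => intro c r h; exact absurd h (by simp [flood])
  | succ k ih =>
    intro c r h
    unfold flood at h
    cases hb : Nat.beq (Nat.lor c (Nat.land (nb c) W)) c with
    | true =>
      rw [hb, cond_true, Option.some.injEq] at h
      subst h
      refine ⟨fun x hx => hx, fun x h1 h2 => ?_⟩
      have he := Nat.eq_of_beq_eq_true hb
      rw [← he, lor_bit, land_bit, h1, h2]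
      simp
    | false =>
      rw [hb, cond_false] at h
      obtain ⟨h1, h2⟩ := ih _ _ h
      refine ⟨fun x hx => h1 x ?_, h2⟩
      rw [lor_bit, hx]; rfl

theorem flood_reach (W : ℕ) (P : ℕ → Prop)
    (hP : ∀ (x : Fin 15) (y : ℕ), P x → (A x).testBit y = true → W.testBit y = true → P y) :
    ∀ k c r, (∀ x, c.testBit x = true → P x) → flood W k c = some r →
      ∀ x, r.testBit x = true → P x := by
  intro k
  induction k with
  | zero => intro c r _ h; exact absurd h (by simp [flood])
  | succ k ih =>
    intro c r hc h
    unfold flood at h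
    cases hb : Nat.beq (Nat.lor c (Nat.land (nb c) W)) c with
    | true =>
      rw [hb, cond_true, Option.some.injEq] at h
      subst h
      exact hc
    | false =>
      rw [hb, cond_false] at h
      refine ih _ _ ?_ h
      intro x hx
      rw [lor_bit, land_bit, Bool.or_eq_true, Bool.and_eq_true, nb_spec] at hx
      rcases hx with hx | ⟨⟨j, h1, h2⟩, h3⟩
      · exact hc x hx
      · exact hP j x (hc _ h1) h2 h3

theorem comp_spec (B : ℕ) (w : Fin 15) (c : ℕ) (hw : w ∈ (toS B)ᶜ) (h : comp B w = some c)
    (x : Fin 15) : c.testBit x = true ↔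
      ∃ hx : x ∈ (toS B)ᶜ, (G15.induce (toS B)ᶜ).Reachable ⟨w, hw⟩ ⟨x, hx⟩ := by
  have hW : ∀ y : Fin 15, (Nat.xor 32767 B).testBit y = true ↔ y ∈ (toS B)ᶜ := by
    intro y
    rw [compl_bit]
    simp [toS]
  constructor
  · intro hx
    have key := flood_reach (Nat.xor 32767 B)
      (fun y => ∃ (h : y < 15) (hy : (⟨y, h⟩ : Fin 15) ∈ (toS B)ᶜ),
        (G15.induce (toS B)ᶜ).Reachable ⟨w, hw⟩ ⟨⟨y, h⟩, hy⟩) ?_ 16 _ c ?_ h x hx
    · obtain ⟨h1, h2, h3⟩ := key
      exact ⟨h2, h3⟩
    · rintro a y ⟨h1, h2, h3⟩ ha hy
      have hy15 := A_bit_lt ha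
      have hyc : (⟨y, hy15⟩ : Fin 15) ∈ (toS B)ᶜ := (hW ⟨y, hy15⟩).1 hy
      refine ⟨hy15, hyc, h3.trans (SimpleGraph.Adj.reachable ?_)⟩
      exact ha
    · intro y hy
      rw [one_bit, decide_eq_true_eq] at hy
      subst hy
      exact ⟨w.2, hw, SimpleGraph.Reachable.refl _⟩
  · rintro ⟨hx, hr⟩
    obtain ⟨h1, h2⟩ := flood_closed _ _ _ _ h
    obtain ⟨p⟩ := hr
    have hwc : c.testBit w = true := h1 w (by rw [one_bit]; simp)
    have key : ∀ (a b : ↥(toS B)ᶜ), (G15.induce (toS B)ᶜ).Walk a b →
        c.testBit (a : Fin 15) = true → c.testBit (b : Fin 15) = true := by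
      intro a b p
      induction p with
      | nil => exact fun h => h
      | @cons a a' b hadj _ ih =>
        intro ha
        apply ih
        apply h2
        · rw [nb_spec]
          exact ⟨a, ha, hadj⟩
        · exact (hW a').2 a'.2
    exact key _ _ p hwc

theorem land_eq_bit (u w : Fin 15) (c : ℕ) : Nat.beq (Nat.land (A u) c) (Nat.shiftLeft 1 w) = true ↔
    (A u).testBit w = true ∧ c.testBit w = true ∧
      ∀ x : Fin 15, (A u).testBit x = true → c.testBit x = true → x = w := by
  rw [Nat.beq_eq]
  constructor
  · intro h
    have hb : ∀ x : ℕ, ((A u).testBit x && c.testBit x) = decide ((w : ℕ) = x) := by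
      intro x
      rw [← land_bit, h, one_bit]
    have h1 := hb w
    rw [decide_eq_true rfl, Bool.and_eq_true] at h1
    refine ⟨h1.1, h1.2, fun x hx hx' => ?_⟩
    have h2 := hb x
    rw [hx, hx', Bool.and_self, eq_comm, decide_eq_true_eq] at h2
    exact (Fin.ext h2).symm
  · rintro ⟨h1, h2, h3⟩
    apply Nat.eq_of_testBit_eq
    intro x
    rw [land_bit, one_bit]
    by_cases hx : (w : ℕ) = x
    · subst hx; rw [h1, h2]; simp
    · rw [decide_eq_false hx]
      cases hA : (A u).testBit x with
      | false => rfl
      | true =>
        cases hc : c.testBit x with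
        | false => rfl
        | true =>
          exact absurd (congrArg Fin.val (h3 ⟨x, A_bit_lt hA⟩ hA hc)).symm hx

theorem forcedBy_spec (B c : ℕ) (w : Fin 15) : forcedBy B c w = true ↔
    ∃ u : Fin 15, B.testBit u = true ∧ (A u).testBit w = true ∧ c.testBit w = true ∧
      ∀ x : Fin 15, (A u).testBit x = true → c.testBit x = true → x = w := by
  unfold forcedBy
  rw [List.any_eq_true]
  constructor
  · rintro ⟨u, hu, h⟩
    rw [mem_ix] at hu
    rw [Bool.and_eq_true] at h
    exact ⟨⟨u, hu⟩, h.1, (land_eq_bit ⟨u, hu⟩ w c).1 h.2⟩
  · rintro ⟨u, h1, h2⟩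
    refine ⟨u, (mem_ix _).2 u.2, ?_⟩
    rw [Bool.and_eq_true]
    exact ⟨h1, (land_eq_bit u w c).2 h2⟩

theorem stepAux_spec (B : ℕ) (l : List ℕ) : ∀ r, stepAux B l = some r →
    (∀ j, r.testBit j = true ↔ B.testBit j = true ∨
      (j ∈ l ∧ B.testBit j = false ∧ ∃ c, comp B j = some c ∧ forcedBy B c j = true)) ∧
    (∀ j ∈ l, B.testBit j = false → ∃ c, comp B j = some c) := by
  induction l with
  | nil =>
    intro r h
    simp only [stepAux, Option.some.injEq] at h
    subst h
    simp
  | cons w l ih =>
    intro r h
    unfold stepAux at h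
    cases hr : stepAux B l with
    | none => rw [hr] at h; exact absurd h (by simp)
    | some r0 =>
      rw [hr] at h
      obtain ⟨h1, h2⟩ := ih r0 hr
      simp only at h
      cases hB : B.testBit w with
      | true =>
        rw [hB, cond_true, Option.some.injEq] at h
        subst h
        refine ⟨fun j => ?_, fun j hj hjB => ?_⟩
        · rw [h1 j]
          constructor
          · rintro (h | ⟨h3, h4⟩)
            · exact Or.inl h
            · exact Or.inr ⟨List.mem_cons_of_mem _ h3, h4⟩
          · rintro (h | ⟨h3, h4, h5⟩)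
            · exact Or.inl h
            · rcases List.mem_cons.1 h3 with rfl | h3
              · rw [hB] at h4; exact absurd h4 (by simp)
              · exact Or.inr ⟨h3, h4, h5⟩
        · rcases List.mem_cons.1 hj with rfl | hj
          · rw [hB] at hjB; exact absurd hjB (by simp)
          · exact h2 j hj hjB
      | false =>
        rw [hB, cond_false] at h
        cases hc : comp B w with
        | none => rw [hc] at h; exact absurd h (by simp)
        | some c =>
          rw [hc] at h
          simp only at h
          refine ⟨fun j => ?_, fun j hj hjB => ?_⟩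
          · cases hf : forcedBy B c w with
            | true =>
              rw [hf, cond_true, Option.some.injEq] at h
              subst h
              rw [lor_bit, one_bit, Bool.or_eq_true, decide_eq_true_eq, h1 j]
              constructor
              · rintro ((h | ⟨h3, h4⟩) | rfl)
                · exact Or.inl h
                · exact Or.inr ⟨List.mem_cons_of_mem _ h3, h4⟩
                · exact Or.inr ⟨List.mem_cons_self, hB, c, hc, hf⟩
              · rintro (h | ⟨h3, h4, h5⟩)
                · exact Or.inl (Or.inl h)
                · rcases List.mem_cons.1 h3 with rfl | h3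
                  · exact Or.inr rfl
                  · exact Or.inl (Or.inr ⟨h3, h4, h5⟩)
            | false =>
              rw [hf, cond_false, Option.some.injEq] at h
              subst h
              rw [h1 j]
              constructor
              · rintro (h | ⟨h3, h4⟩)
                · exact Or.inl h
                · exact Or.inr ⟨List.mem_cons_of_mem _ h3, h4⟩
              · rintro (h | ⟨h3, h4, h5⟩)
                · exact Or.inl h
                · rcases List.mem_cons.1 h3 with rfl | h3
                  · obtain ⟨c', hc', hf'⟩ := h5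
                    rw [hc, Option.some.injEq] at hc'
                    subst hc'
                    rw [hf] at hf'
                    exact absurd hf' (by simp)
                  · exact Or.inr ⟨h3, h4, h5⟩
          · rcases List.mem_cons.1 hj with rfl | hj
            · exact ⟨c, hc⟩
            · exact h2 j hj hjB

theorem step_spec (B r : ℕ) (h : stepAux B ix = some r) : toS r = next G15 (toS B) := by
  obtain ⟨h1, h2⟩ := stepAux_spec B ix r h
  ext x
  have hx : x ∈ toS r ↔ r.testBit x = true := Iff.rfl
  rw [hx, h1 x]
  constructor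
  · rintro (hB | ⟨_, hB, c, hc, hf⟩)
    · exact Or.inl hB
    · right
      have hxB : x ∈ (toS B)ᶜ := by
        intro h; rw [show (x ∈ toS B) = (B.testBit x = true) from rfl, hB] at h
        exact absurd h (by simp)
      obtain ⟨u, hu, ha, _, hall⟩ := (forcedBy_spec B c x).1 hf
      refine ⟨u, hu, ha, hxB, fun w' hw' haw' hr => hall w' haw' ?_⟩
      exact (comp_spec B x c hxB hc w').2 ⟨hw', hr⟩
  · rintro (hB | ⟨u, hu, ha, hxB, hall⟩)
    · exact Or.inl hB
    · right
      have hB : B.testBit x = false := by
        cases hb : B.testBit x with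
        | true => exact absurd hb hxB
        | false => rfl
      obtain ⟨c, hc⟩ := h2 x ((mem_ix _).2 x.2) hB
      refine ⟨(mem_ix _).2 x.2, hB, c, hc, (forcedBy_spec B c x).2 ⟨u, hu, ha, ?_, ?_⟩⟩
      · exact (comp_spec B x c hxB hc x).2 ⟨hxB, SimpleGraph.Reachable.refl _⟩
      · intro y hay hcy
        obtain ⟨hy, hr⟩ := (comp_spec B x c hxB hc y).1 hcy
        exact hall y hy hay hr

theorem toS_univ (B : ℕ) : toS B = Set.univ ↔ ix.all (fun w => Nat.testBit B w) = true := by
  rw [List.all_eq_true, Set.eq_univ_iff_forall]
  constructor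
  · intro h x hx
    exact h ⟨x, (mem_ix x).1 hx⟩
  · intro h x
    exact h x ((mem_ix _).2 x.2)

theorem timeM_spec : ∀ k B t, timeM k B = some t →
    IsLeast {t | (next G15)^[t] (toS B) = Set.univ} t := by
  intro k
  induction k with
  | zero =>
    intro B t h
    have h' : (none : Option ℕ) = some t := h
    exact absurd h' (by simp)
  | succ k ih =>
    intro B t h
    unfold timeM at h
    cases hu : ix.all (fun w => Nat.testBit B w) with
    | true =>
      rw [hu, cond_true, Option.some.injEq] at h
      subst h
      exact ⟨(toS_univ B).2 hu, fun _ _ => Nat.zero_le _⟩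
    | false =>
      rw [hu, cond_false] at h
      cases hs : stepAux B ix with
      | none => rw [hs] at h; exact absurd h (by simp)
      | some r =>
        rw [hs] at h
        simp only at h
        cases ht : timeM k r with
        | none => rw [ht] at h; exact absurd h (by simp)
        | some t' =>
          rw [ht] at h
          simp only [Option.some.injEq] at h
          subst h
          obtain ⟨h1, h2⟩ := ih r t' ht
          rw [step_spec B r hs] at h1 h2
          constructor
          · exact h1
          · intro s hs'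
            cases s with
            | zero =>
              exfalso
              have : toS B = Set.univ := hs'
              rw [toS_univ, hu] at this
              exact absurd this (by simp)
            | succ s => exact Nat.succ_le_succ (h2 hs')

theorem propTime_of_timeM {k B t : ℕ} (h : timeM k B = some t) : propTime G15 (toS B) = t :=
  (timeM_spec k B t h).csInf_eq

theorem isForcing_of_timeM {k B t : ℕ} (h : timeM k B = some t) : IsForcing G15 (toS B) :=
  isForcing_of_iterate (timeM_spec k B t h).1

theorem isFort_spec {f s : ℕ} (h : isFort f s = true) {T : Set (Fin 15)}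
    (hT : ∀ x ∈ T, f.testBit x = false) : ¬ IsForcing G15 T := by
  unfold isFort at h
  simp only [Bool.and_eq_true] at h
  obtain ⟨⟨⟨⟨h1, h2⟩, h3⟩, h4⟩, h5⟩ := h
  have hs15 : s < 15 := by
    have := h2; rw [Nat.blt_eq] at this; exact this
  cases hfl : flood f 16 (Nat.shiftLeft 1 s) with
  | none => rw [hfl] at h4; exact absurd h4 (by simp)
  | some r =>
    rw [hfl] at h4
    have hrf : r = f := Nat.eq_of_beq_eq_true h4
    subst hrf
    have hsf : (⟨s, hs15⟩ : Fin 15) ∈ toS r := h1
    have hf15 : r < 2 ^ 15 := by rw [Nat.blt_eq] at h3; exact h3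
    refine fort (c := toS r) hsf ?_ ?_ ?_
    · intro x hx
      have key := flood_reach r (fun y => ∃ (h : y < 15) (hy : (⟨y, h⟩ : Fin 15) ∈ toS r),
        (G15.induce (toS r)).Reachable ⟨⟨s, hs15⟩, hsf⟩ ⟨⟨y, h⟩, hy⟩) ?_ 16 _ r ?_ hfl x hx
      · obtain ⟨_, _, h⟩ := key
        exact h
      · rintro a y ⟨g1, g2, g3⟩ ha hy
        have hy15 := A_bit_lt ha
        refine ⟨hy15, hy, g3.trans (SimpleGraph.Adj.reachable ?_)⟩
        exact ha
      · intro y hy
        rw [one_bit, decide_eq_true_eq] at hy
        subst hy
        exact ⟨hs15, hsf, SimpleGraph.Reachable.refl _⟩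
    · intro u hu w hw ha
      by_contra hcon
      push Not at hcon
      have hex : Nat.land (A u) r = Nat.shiftLeft 1 w := by
        have := (land_eq_bit u w r).2 ⟨ha, hw, fun x hx hxr => by
          by_contra hne
          exact hcon x hxr hne hx⟩
        exact Nat.eq_of_beq_eq_true this
      rw [List.all_eq_true] at h5
      have h6 := h5 u ((mem_ix _).2 u.2)
      rw [hex] at h6
      have hru : r.testBit u = false := by
        cases hb : r.testBit u with
        | true => exact absurd hb hu
        | false => rfl
      rw [hru] at h6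
      clear hex hcon ha hw
      revert h6
      revert w
      decide
    · intro x hx hxr
      have := hT x hx
      rw [show (x ∈ toS r) = (r.testBit x = true) from rfl, this] at hxr
      exact absurd hxr (by simp)

end computation

section tree

/-- the finite set with the bit mask `m` -/
def toF (m : ℕ) : Finset (Fin 15) := Finset.univ.filter fun x => m.testBit x = true

theorem coe_toF (m : ℕ) : ((toF m : Finset (Fin 15)) : Set (Fin 15)) = toS m := by
  ext x; simp [toF, toS]

theorem mem_toF (m : ℕ) (x : Fin 15) : x ∈ toF m ↔ m.testBit x = true := by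
  simp [toF]

theorem leafOK_spec {S : ℕ} (h : leafOK S = true) :
    IsForcing G15 (toS S) ∧ propTime G15 (toS S) ∈ ({1, 2, 3, 5, 6, 7, 8, 9} : Set ℕ) := by
  unfold leafOK at h
  cases ht : timeM 20 S with
  | none => rw [ht] at h; exact absurd h (by simp)
  | some t =>
    rw [ht] at h
    refine ⟨isForcing_of_timeM ht, ?_⟩
    rw [propTime_of_timeM ht]
    simp only [okT, Bool.and_eq_true, Bool.not_eq_true', Nat.ble_eq] at h
    obtain ⟨⟨h1, h2⟩, h3⟩ := h
    have h4 : t ≠ 4 := by
      rintro rfl
      exact absurd h3 (by decide)
    simp only [Set.mem_insert_iff, Set.mem_singleton_iff]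
    omega

theorem chk_sound (t : SearchTree) : ∀ (S X b : ℕ), chk t S X b = true →
    ∀ T : Finset (Fin 15), toF S ⊆ T → (∀ x ∈ T, X.testBit x = false) →
      T.card ≤ (toF S).card + b → IsForcing G15 (T : Set (Fin 15)) →
      T.card = (toF S).card + b ∧
        propTime G15 (T : Set (Fin 15)) ∈ ({1, 2, 3, 5, 6, 7, 8, 9} : Set ℕ) := by
  induction t with
  | F =>
    intro S X b h T hST hTX hcard hf
    simp only [chk, Bool.and_eq_true] at h
    have hb : b = 0 := Nat.eq_of_beq_eq_true h.1
    subst hb
    have hTS : toF S = T := Finset.eq_of_subset_of_card_le hST (by simpa using hcard)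
    subst hTS
    refine ⟨rfl, ?_⟩
    rw [coe_toF]
    exact (leafOK_spec h.2).2
  | D f s =>
    intro S X b h T hST hTX hcard hf
    simp only [chk, Bool.and_eq_true] at h
    exfalso
    refine isFort_spec h.1 (T := (T : Set (Fin 15))) ?_ hf
    intro x hx
    have hx' : x ∈ T := hx
    cases hb : Nat.beq b 0 with
    | true =>
      rw [hb, cond_true] at h
      have hb0 : b = 0 := Nat.eq_of_beq_eq_true hb
      subst hb0
      have hTS : toF S = T := Finset.eq_of_subset_of_card_le hST (by simpa using hcard)
      rw [← hTS, mem_toF] at hx'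
      have h0 := Nat.eq_of_beq_eq_true h.2
      have h1 : (Nat.land f S).testBit x = false := by rw [h0]; exact Nat.zero_testBit _
      rw [land_bit, hx', Bool.and_true] at h1
      exact h1
    | false =>
      rw [hb, cond_false] at h
      have h0 := Nat.eq_of_beq_eq_true h.2
      have h1 : (Nat.land f X).testBit x = f.testBit x := by rw [h0]
      rw [land_bit, hTX x hx', Bool.and_false] at h1
      exact h1.symm
  | B v t1 t2 ih1 ih2 =>
    intro S X b h T hST hTX hcard hf
    simp only [chk, Bool.and_eq_true, Bool.not_eq_true'] at h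
    obtain ⟨hb, hv, hSv, h1, h2⟩ := h
    rw [Nat.blt_eq] at hb hv
    by_cases hvT : (⟨v, hv⟩ : Fin 15) ∈ T
    · have hins : toF (Nat.lor S (Nat.shiftLeft 1 v)) = insert ⟨v, hv⟩ (toF S) := by
        ext x
        rw [mem_toF, lor_bit, one_bit, Finset.mem_insert, mem_toF, Bool.or_eq_true,
          decide_eq_true_eq, or_comm, Fin.ext_iff]
        constructor
        · rintro (h | h)
          · exact Or.inl h.symm
          · exact Or.inr h
        · rintro (h | h)
          · exact Or.inl h.symm
          · exact Or.inr h
      have hnot : (⟨v, hv⟩ : Fin 15) ∉ toF S := by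
        rw [mem_toF]; simp [hSv]
      have hcard' : (toF (Nat.lor S (Nat.shiftLeft 1 v))).card = (toF S).card + 1 := by
        rw [hins, Finset.card_insert_of_notMem hnot]
      have hb' : Nat.sub b 1 = b - 1 := rfl
      have := ih1 _ _ _ h1 T (by rw [hins]; exact Finset.insert_subset hvT hST) hTX
        (by rw [hcard', hb']; omega) hf
      rw [hcard', hb'] at this
      refine ⟨?_, this.2⟩
      omega
    · refine ih2 _ _ _ h2 T hST ?_ hcard hf
      intro x hx
      rw [lor_bit, one_bit, hTX x hx, Bool.false_or, decide_eq_false_iff_not]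
      intro hvx
      apply hvT
      have : (⟨v, hv⟩ : Fin 15) = x := Fin.ext hvx
      rw [this]; exact hx

/-- All forcing sets with at most six vertices. -/
theorem small_forcing (T : Set (Fin 15)) (hT : T.ncard ≤ 6) (hf : IsForcing G15 T) :
    T.ncard = 6 ∧ propTime G15 T ∈ ({1, 2, 3, 5, 6, 7, 8, 9} : Set ℕ) := by
  classical
  have hfin : T.Finite := Set.toFinite T
  have hco : ((hfin.toFinset : Finset (Fin 15)) : Set (Fin 15)) = T := hfin.coe_toFinset
  have hc : hfin.toFinset.card = T.ncard := (Set.ncard_eq_toFinset_card T hfin).symm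
  have h0 : toF 0 = ∅ := by
    ext x; rw [mem_toF]; simp
  have := chk_sound tree 0 0 6 check hfin.toFinset (by rw [h0]; exact Finset.empty_subset _)
    (fun x _ => Nat.zero_testBit _) (by rw [h0, hc]; simpa using hT) (by rwa [hco])
  rw [h0, hc, hco] at this
  simpa using this

theorem ncard_toS (m : ℕ) : (toS m).ncard = (toF m).card := by
  rw [← coe_toF, Set.ncard_coe_finset]

theorem forcingNumber_eq : forcingNumber G15 = 6 := by
  have h : IsLeast {k | ∃ S : Set (Fin 15), IsForcing G15 S ∧ S.ncard = k} 6 := by
    constructor
    · exact ⟨toS 1394, isForcing_of_timeM time1, by rw [ncard_toS]; decide⟩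
    · rintro k ⟨S, hS, rfl⟩
      by_contra hlt
      have := (small_forcing S (by omega) hS).1
      omega
  exact h.csInf_eq

theorem mem_propTimes {m t : ℕ} (h : timeM 20 m = some t) (hc : (toF m).card = 6) :
    t ∈ propTimes G15 :=
  ⟨toS m, ⟨isForcing_of_timeM h, by rw [forcingNumber_eq, ncard_toS, hc]⟩, propTime_of_timeM h⟩

theorem propTimes_eq : propTimes G15 = {1, 2, 3, 5, 6, 7, 8, 9} := by
  apply Set.Subset.antisymm
  · rintro t ⟨S, hS, rfl⟩
    have hc : S.ncard = 6 := by rw [hS.2, forcingNumber_eq]
    exact (small_forcing S hc.le hS.1).2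
  · intro t ht
    simp only [Set.mem_insert_iff, Set.mem_singleton_iff] at ht
    rcases ht with rfl | rfl | rfl | rfl | rfl | rfl | rfl | rfl
    · exact mem_propTimes (m := 1394) (by decide +kernel) (by decide)
    · exact mem_propTimes (m := 819) (by decide +kernel) (by decide)
    · exact mem_propTimes (m := 8499) (by decide +kernel) (by decide)
    · exact mem_propTimes (m := 685) (by decide +kernel) (by decide)
    · exact mem_propTimes (m := 4749) (by decide +kernel) (by decide)
    · exact mem_propTimes (m := 4623) (by decide +kernel) (by decide)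
    · exact mem_propTimes (m := 783) (by decide +kernel) (by decide)
    · exact mem_propTimes (m := 8463) (by decide +kernel) (by decide)

end tree

/-- There is a graph with 15 vertices whose minimum positive semidefinite zero forcing sets have six
vertices and have exactly the propagation times `1, 2, 3, 5, 6, 7, 8, 9`. -/
theorem result : ∃ G : SimpleGraph (Fin 15), forcingNumber G = 6 ∧
    propTimes G = {1, 2, 3, 5, 6, 7, 8, 9} ∧
    ∃ k : ℕ, sInf (propTimes G) < k ∧ k < sSup (propTimes G) ∧ k ∉ propTimes G := by
  refine ⟨G15, forcingNumber_eq, propTimes_eq, 4, ?_, ?_, ?_⟩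
  · refine lt_of_le_of_lt (Nat.sInf_le (m := 1) ?_) (by norm_num)
    rw [propTimes_eq]; simp
  · refine lt_of_lt_of_le (by norm_num : 4 < 9) (le_csSup ?_ ?_)
    · rw [propTimes_eq]
      exact ⟨9, by intro x hx; simp only [Set.mem_insert_iff, Set.mem_singleton_iff] at hx; omega⟩
    · rw [propTimes_eq]; simp
  · rw [propTimes_eq]; simp

end Pool.Agent.Results.MP_bfe17a_co.NoInterval
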